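import Pool.Agent.Q169.WL.Ends

/-!
# Zero in the spectrum for groups which split over amenable subgroups

A finite aspherical complex `M` with fundamental group `G` enters through the cellular chain
complex `X : FinRes G` of its universal cover, a finite free resolution of the trivial
`ℤ[G]`-module `ℤ` (starting files, `Pool/Agent/H919R4/ZS/Defs.lean`), and `X.homology (toRed G) i`
is `H_i(M; C*_r(G))`. `IsAmenable` is amenability (the Foelner condition), defined in
`Pool/Agent/H496R3/ZS/Stmt.lean`.
-/

set_option autoImplicit false

namespace Pool.Agent.Results.MP_9f173d_gt.AmenableWalls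

open scoped Pointwise
open Pool.Agent.H919R4.ZS (FinRes toRed)
open Pool.Agent.H496R3.ZS (IsAmenable)

/-- The homology of `X` with coefficients in `C*_r(G)` does not vanish in degree 0 or 1 in each of
the following cases.

1. `G` acts on a set `E` with amenable stabilizers, and `A` is a subset of `E` such that `g A` and
`A` differ by finitely many elements for every `g`, but `A` differs from every `G`-invariant subset
by infinitely many elements.

2. `C` is an amenable subgroup of `G`, and the pair `(G, C)` has at least two ends: there is a
subset `A` of `G / C`, infinite with infinite complement, such that `g A` and `A` differ by finitely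
many elements for every `g`.

3. `G` acts on a tree `T` without fixed vertex and without inversion, and the stabilizers of the
edges are amenable. -/
theorem result {G : Type} [Group G] (X : FinRes G) :
    (∀ (E : Type) [MulAction G E], (∀ e : E, IsAmenable (MulAction.stabilizer G e)) →
      ∀ A : Set E, (∀ g : G, (symmDiff (g • A) A).Finite) →
        (∀ B : Set E, (∀ g : G, g • B = B) → (symmDiff A B).Infinite) →
          ∃ i ≤ 1, Nontrivial (X.homology (toRed G) i)) ∧
    (∀ C : Subgroup G, IsAmenable C → ∀ A : Set (G ⧸ C), (∀ g : G, (symmDiff (g • A) A).Finite) →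
      A.Infinite → Aᶜ.Infinite → ∃ i ≤ 1, Nontrivial (X.homology (toRed G) i)) ∧
    (∀ (V : Type) [MulAction G V] (T : SimpleGraph V), T.IsTree →
      (∀ (g : G) (a b : V), T.Adj a b → T.Adj (g • a) (g • b)) →
      (∀ (g : G) (a b : V), T.Adj a b → ¬ (g • a = b ∧ g • b = a)) →
      (∀ a : V, ∃ g : G, g • a ≠ a) →
      (∀ a b : V, T.Adj a b → IsAmenable (MulAction.stabilizer G ((a, b) : V × V))) →
        ∃ i ≤ 1, Nontrivial (X.homology (toRed G) i)) :=
  ⟨fun _ _ hE A hA hB => Pool.Agent.Q169.WL.walls2 X hE A hA hB,
    fun C hC A hA h1 h2 => Pool.Agent.Q169.WL.ends X C hC A hA h1 h2,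
    fun _ _ _ hT hadj hinv hfix ham => Pool.Agent.Q169.WL.trees' X hT hadj hinv hfix ham⟩

end Pool.Agent.Results.MP_9f173d_gt.AmenableWalls
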