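import Pool.Agent.Q173.PT.Linear

/-!
# Zero in the spectrum for finite aspherical complexes and the condition number of the Laplacian
-/

set_option autoImplicit false

open Pool.Agent.Q173.PT

namespace Pool.Agent.Results.MP_9f173d_gt.ConditionNumber

universe u

theorem result {V : Type u} (G : CellData V) (hG : G.IsKnown) :
    G.ZeroIn ↔ ∀ ε : ℝ, 0 < ε → ∀ B : ℕ, ∃ n, B ≤ n ∧
      ∀ M, G.dim M = n → G.bot M ≤ ε * G.top M :=
  hG.criterion

end Pool.Agent.Results.MP_9f173d_gt.ConditionNumber
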