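import Pool.Agent.Q23.PP.Final

/-!
# Zero in the spectrum for compact aspherical four-manifolds with non-empty boundary

A compact aspherical `4`-manifold `M` with non-empty boundary and fundamental group `G` is homotopy
equivalent to a finite aspherical complex of dimension at most three. It enters through the cellular
chain complex of the universal covering of this complex, the cellular chain complexes of the
components of the boundary `∂M̃` of its own universal covering, and the isomorphisms of Poincare and
Lefschetz duality (`Pool.Agent.Q23.PP.AsphericalFour`). The boundary components are arbitrary closed
`3`-manifolds; their fundamental groups need not inject into `G`.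

The second part is a theorem on Poincare duality pairs of groups in the sense of Bieri and Eckmann,
of any dimension (`Pool.Agent.Q23.PP.PDPair`).
-/

set_option autoImplicit false

open Pool.Agent.H919R4.ZS (FinRes toRed)
open Pool.Agent.Q23.PP (AsphericalFour PDPair)

namespace Pool.Agent.Results.MP_9f173d_gt.FourManifoldsWithBoundary

/-- Let `G` be the fundamental group of a compact aspherical `4`-manifold with non-empty boundary.
Then for every finite free resolution `X'` of `ℤ` over `ℤ[G]` (the cellular chain complex of the
universal covering of a finite aspherical complex with fundamental group `G`) the homology of `X'`
with coefficients in `C*_r(G)` does not vanish in some degree. Moreover, let `(G; H_0, ..., H_(c-1))`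
be a Poincare duality pair of any dimension. If the homology of some `H_a` with coefficients in
`C*_r(H_a)` does not vanish in some degree, then so does the homology of `G` with coefficients in
`C*_r(G)`. -/
theorem result {G : Type} [Group G] (X' : FinRes G) :
    (Nonempty (AsphericalFour G) → ∃ i, Nontrivial (X'.homology (toRed G) i)) ∧
    ∀ (k : ℕ) (P : PDPair G k) (a : Fin P.c),
      (∃ i, Nontrivial ((P.Y a).homology (toRed (P.H a)) i)) →
        ∃ i, Nontrivial (X'.homology (toRed G) i) :=
  Pool.Agent.Q23.PP.final X'

end Pool.Agent.Results.MP_9f173d_gt.FourManifoldsWithBoundary
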