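import Pool.Agent.Q169.ZE.Final3

/-!
# Zero in the spectrum for uniform lattices of locally finite regular buildings

`(W, S)` is a Coxeter system of finite rank, `Φ` the set of chambers of a building of type
`(W, S)` with Weyl distance `δ` (`IsBuilding`: the axioms (WD1), (WD2), (WD3) of Abramenko and
Brown). The building is locally finite and regular: for every `s_b ∈ S` each chamber has the same
finite number `k b` of `s_b`-adjacent chambers. `N` is a torsion-free group which acts on `Φ` by
automorphisms (`δ (n c) (n d) = δ c d`) with finite stabilisers and finitely many orbits. Examples: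
`Φ = W` with `δ c d = c⁻¹ d` and a torsion-free subgroup `N` of finite index in `W` (`k b = 1`);
uniform lattices of Euclidean and hyperbolic buildings; subgroups of graph products of finite
groups.

`N` has a finite classifying space (the quotient of the Davis realisation of the building). A finite
aspherical complex with fundamental group `N` enters through the cellular chain complex
`X : FinRes N` of its universal cover, as in the starting files of this problem, and
`X.homology (toRed N) i` is `H_i(M; C*_r(N))`.
-/

set_option autoImplicit false

namespace Pool.Agent.Results.MP_9f173d_gt.RegularBuildings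

open Pool.Agent.Q169.ZD (IsBuilding)
open Pool.Agent.H919R4.ZS (FinRes toRed)

theorem result {B : Type} [Finite B] {M : CoxeterMatrix B} {W : Type} [Group W]
    (cs : CoxeterSystem M W) {Φ : Type} [Nonempty Φ] (δ : Φ → Φ → W) (hδ : IsBuilding cs δ)
    (k : B → ℕ) (hk : ∀ b c, {c' | δ c' c = cs.simple b}.encard = k b)
    (N : Type) [Group N] [MulAction N Φ] (hN : ∀ (n : N) c d, δ (n • c) (n • d) = δ c d)
    (hst : ∀ c : Φ, Finite (MulAction.stabilizer N c))
    (hco : Finite (MulAction.orbitRel.Quotient N Φ))
    (htf : ∀ n : N, IsOfFinOrder n → n = 1) :
    Nonempty (FinRes N) ∧ ∀ X : FinRes N, ∃ i, Nontrivial (X.homology (toRed N) i) :=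
  Pool.Agent.Q169.ZE.final3 cs δ hδ k hk N hN hst hco htf

end Pool.Agent.Results.MP_9f173d_gt.RegularBuildings
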